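import Pool.Agent.Helper49.OLB.CDb

set_option autoImplicit false
set_option linter.unusedSectionVars false

open Polynomial Finset DirectSum

namespace Pool.Agent.Helper49.OLB

open Pool.Agent.Helper766_CF Pool.Agent.Helper766_CG Pool.Agent.Helper766_CH
open Pool.Agent.Helper58.CS Pool.Agent.Helper58.OP Pool.Agent.Helper58.SH Pool.Agent.Helper58.BG
open Pool.Agent.Helper58.LC Pool.Agent.Helper58.NS Pool.Agent.Helper58.DP Pool.Agent.Helper58.OL

variable {R : Type} [CommRing R] [Algebra ℂ R] {𝒜 : ℕ → Submodule ℂ R} [GradedAlgebra 𝒜]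
  {br : R →ₗ[ℂ] R →ₗ[ℂ] R} {k : Type} [Field k] [Algebra ℂ k] [IsAlgClosed k]

/-- CD -/
theorem codim [IsDomain R] [UniqueFactorizationMonoid R] (C : Core 𝒜 br) {n : ℕ}
    (hdim : ringKrullDim R = (2 * n : ℕ)) {F G : R →ₐ[ℂ] k[X]} (hF : IsCurve 𝒜 k 1 F)
    (hG : IsCurve 𝒜 k 1 G)
    (hrev : ∀ d, ∀ a ∈ 𝒜 d, ∀ i j, i + j = d → (F a).coeff i = (G a).coeff j)
    (hsF : ∀ t, Pool.Agent.Helper4.LE.SubAt F t) (hsG : ∀ t, Pool.Agent.Helper4.LE.SubAt G t)
    {d : ℕ} (hd : 0 < d) {a b : R} (ha : a ∈ 𝒜 d) (hb : b ∈ 𝒜 d) (hb0 : b ≠ 0)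
    (hcop : ∀ p, Prime p → p ∣ a → ¬ p ∣ b) {c : k} (hc : F a = Polynomial.C c * F b) : False := by
  by_cases hdeg : (F b).degree = 0
  · -- the common zero is at infinity
    have h1 : (F b).coeff d = 0 := by
      apply coeff_eq_zero_of_degree_lt
      rw [hdeg]
      exact_mod_cast hd
    have h2 : (G b).eval 0 = 0 := by
      rw [← coeff_zero_eq_eval_zero, ← hrev d b hb d 0 (by omega), h1]
    have h3 : (G a).eval 0 = 0 := by
      rw [← coeff_zero_eq_eval_zero, ← hrev d a ha d 0 (by omega), hc, coeff_C_mul, h1, mul_zero]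
    exact no_small C.fg hdim (hsG 0) h3 h2 hb0 hcop
  · obtain ⟨t, ht⟩ := IsAlgClosed.exists_root (F b) hdeg
    have h2 : (F b).eval t = 0 := ht
    have h3 : (F a).eval t = 0 := by rw [hc, eval_mul, h2, mul_zero]
    exact no_small C.fg hdim (hsF t) h3 h2 hb0 hcop

end Pool.Agent.Helper49.OLB
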