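import Pool.Agent.Helper58.OL.Def
import Pool.Agent.Helper98.DP.A1a
import Pool.Agent.Helper96.DT.BA

set_option autoImplicit false
set_option linter.unusedSectionVars false

open Polynomial Finset DirectSum

namespace Pool.Agent.Helper49.OLB

open Pool.Agent.Helper766_CF Pool.Agent.Helper766_CG Pool.Agent.Helper766_CH
open Pool.Agent.Helper58.CS Pool.Agent.Helper58.OP Pool.Agent.Helper58.SH Pool.Agent.Helper58.BG
open Pool.Agent.Helper58.LC Pool.Agent.Helper58.NS Pool.Agent.Helper58.DP Pool.Agent.Helper58.OL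

/-- a prime ideal containing two coprime elements has codimension at least two -/
theorem exists_few {R : Type} [CommRing R] [IsDomain R] [UniqueFactorizationMonoid R] [Algebra ℂ R]
    (hfg : Algebra.FiniteType ℂ R) {n : ℕ} (hdim : ringKrullDim R = (n : ℕ)) (Q : Ideal R)
    (hQ : Q.IsPrime) {a b : R} (ha : a ∈ Q) (hb : b ∈ Q) (hb0 : b ≠ 0)
    (hcop : ∀ p, Prime p → p ∣ a → ¬ p ∣ b) :
    ∃ (s : ℕ) (g : MvPolynomial (Fin s) ℂ →ₐ[ℂ] (R ⧸ Q)), s + 2 ≤ n ∧ Function.Injective g ∧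
      g.toRingHom.IsIntegral := by
  have hdom : IsDomain (R ⧸ Q) := Ideal.Quotient.isDomain Q
  have hfg' : Algebra.FiniteType ℂ (R ⧸ Q) :=
    Algebra.FiniteType.of_surjective (Ideal.Quotient.mkₐ ℂ Q) (Ideal.Quotient.mkₐ_surjective ℂ Q)
  obtain ⟨s, g, ginj, gint⟩ := exists_integral_inj_algHom_of_fg ℂ (R ⧸ Q)
  refine ⟨s, g, ?_, ginj, gint⟩
  have h1 : ((s : ℕ) : WithBot ℕ∞) ≤ ringKrullDim (R ⧸ Q) := by
    let := g.toRingHom.toAlgebra
    have hint : Algebra.IsIntegral (MvPolynomial (Fin s) ℂ) (R ⧸ Q) := ⟨gint⟩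
    have h1 := Pool.Agent.Helper96.DT.dim_le (MvPolynomial (Fin s) ℂ) (R ⧸ Q) ginj
    rw [MvPolynomial.ringKrullDim_of_isNoetherianRing, ringKrullDim_eq_zero_of_field] at h1
    simpa only [Nat.card_eq_fintype_card, Fintype.card_fin, zero_add] using h1
  -- a prime factor of `b` in `Q`
  obtain ⟨p, hp, hpQ, hpb⟩ : ∃ p, Prime p ∧ p ∈ Q ∧ p ∣ b := by
    have h2 : (UniqueFactorizationMonoid.factors b).prod ∈ Q := by
      obtain ⟨u, hu⟩ := UniqueFactorizationMonoid.factors_prod hb0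
      rw [← hu] at hb
      rcases hQ.mem_or_mem hb with h | h
      · exact h
      · exact absurd (Ideal.eq_top_of_isUnit_mem _ h u.isUnit) hQ.ne_top
    obtain ⟨p, hp1, hp2⟩ := (hQ.multiset_prod_mem_iff_exists_mem _).1 h2
    exact ⟨p, UniqueFactorizationMonoid.prime_of_factor p hp1, hp2,
      UniqueFactorizationMonoid.dvd_of_mem_factors hp1⟩
  have hpa : ¬ p ∣ a := fun h => hcop p hp h hpb
  have h3 := ringKrullDim_quotient_succ_le_of_nonZeroDivisor (R := R) (r := p)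
    (mem_nonZeroDivisors_of_ne_zero hp.ne_zero)
  have hpr : (Ideal.span {p}).IsPrime := (Ideal.span_singleton_prime hp.ne_zero).2 hp
  have hdom' : IsDomain (R ⧸ Ideal.span {p}) := Ideal.Quotient.isDomain _
  have ha' : (Ideal.Quotient.mk (Ideal.span {p}) a) ≠ 0 := by
    intro h
    rw [Ideal.Quotient.eq_zero_iff_mem, Ideal.mem_span_singleton] at h
    exact hpa h
  have h4 := ringKrullDim_quotient_succ_le_of_nonZeroDivisor (R := R ⧸ Ideal.span {p})
    (r := Ideal.Quotient.mk (Ideal.span {p}) a) (mem_nonZeroDivisors_of_ne_zero ha')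
  have hle : Ideal.span {p} ≤ Q := by
    rw [Ideal.span_singleton_le_iff_mem]
    exact hpQ
  let φ : (R ⧸ Ideal.span {p}) ⧸ Ideal.span {Ideal.Quotient.mk (Ideal.span {p}) a} →+* R ⧸ Q :=
    Ideal.Quotient.lift _ (Ideal.Quotient.factor hle) (by
      intro x hx
      rw [Ideal.mem_span_singleton] at hx
      obtain ⟨y, rfl⟩ := hx
      rw [map_mul, Ideal.Quotient.factor_mk, Ideal.Quotient.eq_zero_iff_mem.2 ha, zero_mul])
  have hφ : Function.Surjective φ := by
    intro x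
    obtain ⟨r, rfl⟩ := Ideal.Quotient.mk_surjective x
    exact ⟨Ideal.Quotient.mk _ (Ideal.Quotient.mk _ r), rfl⟩
  have h5 := ringKrullDim_le_of_surjective φ hφ
  rw [hdim] at h3
  have h6 : ((s : ℕ) : WithBot ℕ∞) + 1 + 1 ≤ (n : ℕ) := by
    refine le_trans ?_ h3
    refine add_le_add ?_ le_rfl
    refine le_trans ?_ h4
    exact add_le_add (h1.trans h5) le_rfl
  exact_mod_cast h6

end Pool.Agent.Helper49.OLB
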