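import Pool.Agent.Helper49.OLB.CDa

set_option autoImplicit false
set_option linter.unusedSectionVars false

open Polynomial Finset DirectSum

namespace Pool.Agent.Helper49.OLB

open Pool.Agent.Helper766_CF Pool.Agent.Helper766_CG Pool.Agent.Helper766_CH
open Pool.Agent.Helper58.CS Pool.Agent.Helper58.OP Pool.Agent.Helper58.SH Pool.Agent.Helper58.BG
open Pool.Agent.Helper58.LC Pool.Agent.Helper58.NS Pool.Agent.Helper58.DP Pool.Agent.Helper58.OL

variable {R : Type} [CommRing R] [Algebra ℂ R] {k : Type} [Field k] [Algebra ℂ k]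

/-- the derivations along `p` which kill the kernel of `p` -/
def EK (p : R →ₐ[ℂ] k) : Submodule k (R →ₗ[ℂ] k) where
  carrier := {δ | (∀ a b, δ (a * b) = p a * δ b + p b * δ a) ∧ ∀ r, p r = 0 → δ r = 0}
  zero_mem' := ⟨by intro a b; simp, by intro r _; simp⟩
  add_mem' := by
    intro x y hx hy
    refine ⟨fun a b => ?_, fun r hr => ?_⟩
    · rw [LinearMap.add_apply, hx.1 a b, hy.1 a b, LinearMap.add_apply, LinearMap.add_apply]
      ring
    · rw [LinearMap.add_apply, hx.2 r hr, hy.2 r hr, add_zero]
  smul_mem' := by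
    intro c x hx
    refine ⟨fun a b => ?_, fun r hr => ?_⟩
    · rw [LinearMap.smul_apply, hx.1 a b, LinearMap.smul_apply, LinearMap.smul_apply, smul_eq_mul,
        smul_eq_mul, smul_eq_mul]
      ring
    · rw [LinearMap.smul_apply, hx.2 r hr, smul_zero]

theorem ek_small (p : R →ₐ[ℂ] k) {s : ℕ}
    (g : MvPolynomial (Fin s) ℂ →ₐ[ℂ] (R ⧸ RingHom.ker p)) (ginj : Function.Injective g)
    (gint : g.toRingHom.IsIntegral) : Module.Finite k (EK p) ∧ Module.finrank k (EK p) ≤ s := by
  have hpr : (RingHom.ker p).IsPrime := RingHom.ker_isPrime _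
  have hdom : IsDomain (R ⧸ RingHom.ker p) := Ideal.Quotient.isDomain _
  have hsurj := Ideal.Quotient.mk_surjective (I := RingHom.ker p)
  choose γ hγ using fun j => hsurj (g (MvPolynomial.X j))
  let ev : EK p →ₗ[k] (Fin s → k) :=
    { toFun := fun δ j => (δ : R →ₗ[ℂ] k) (γ j)
      map_add' := fun x y => rfl
      map_smul' := fun c x => rfl }
  have hev : Function.Injective ev := by
    rw [injective_iff_map_eq_zero]
    intro δ hδ
    have hker : ∀ x y : R, Ideal.Quotient.mk (RingHom.ker p) x = Ideal.Quotient.mk _ y →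
        (δ : R →ₗ[ℂ] k) x = (δ : R →ₗ[ℂ] k) y := by
      intro x y hxy
      rw [Ideal.Quotient.eq, RingHom.mem_ker] at hxy
      have := δ.2.2 _ hxy
      rwa [map_sub, sub_eq_zero] at this
    let δ' : (R ⧸ RingHom.ker p) →ₗ[ℂ] k :=
      { toFun := fun x => (δ : R →ₗ[ℂ] k) (Function.surjInv hsurj x)
        map_add' := by
          intro x y
          rw [← map_add]
          apply hker
          rw [map_add, Function.surjInv_eq hsurj, Function.surjInv_eq hsurj,
            Function.surjInv_eq hsurj]
        map_smul' := by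
          intro c x
          rw [RingHom.id_apply, ← map_smul]
          apply hker
          rw [Function.surjInv_eq hsurj]
          have : Ideal.Quotient.mk (RingHom.ker p) (c • Function.surjInv hsurj x) =
              c • Ideal.Quotient.mk (RingHom.ker p) (Function.surjInv hsurj x) := rfl
          rw [this, Function.surjInv_eq hsurj] }
    have hδ' : ∀ r, δ' (Ideal.Quotient.mk _ r) = (δ : R →ₗ[ℂ] k) r := fun r =>
      hker _ _ (Function.surjInv_eq hsurj _)
    have hder : IsDer (Ideal.kerLiftAlg p) δ' := by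
      refine ⟨fun x y => ?_⟩
      obtain ⟨a, rfl⟩ := hsurj x
      obtain ⟨b, rfl⟩ := hsurj y
      rw [← map_mul, hδ', hδ', hδ']
      exact δ.2.1 a b
    have h0 := Pool.Agent.Helper96.DT.der_zero g ginj gint (Ideal.kerLiftAlg_injective p) δ' hder
      (by
        intro j
        rw [← hγ j, hδ']
        exact congrFun hδ j)
    apply Subtype.ext
    apply LinearMap.ext
    intro r
    have := h0 (Ideal.Quotient.mk _ r)
    rw [hδ'] at this
    exact this
  refine ⟨Module.Finite.of_injective ev hev, ?_⟩
  have := LinearMap.finrank_le_finrank_of_injective hev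
  rwa [Module.finrank_fin_fun] at this

theorem eval_der (D : Derivation ℂ k k) (t : k) (p : k[X]) :
    D (p.eval t) = (p.sum fun i c => D c * t ^ i) + (derivative p).eval t * D t := by
  induction p using Polynomial.induction_on' with
  | add p q hp hq =>
    rw [eval_add, map_add, hp, hq, derivative_add, eval_add,
      Polynomial.sum_add_index p q _ (by intro i; simp) (by intro i a b; rw [map_add, add_mul])]
    ring
  | monomial n a =>
    rw [eval_monomial, derivative_monomial, eval_monomial, sum_monomial_index _ _ (by simp),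
      Derivation.leibniz, Derivation.leibniz_pow, smul_eq_mul, smul_eq_mul, smul_eq_mul]
    simp only [nsmul_eq_mul]
    ring

/-- the velocity -/
noncomputable def vel (H : R →ₐ[ℂ] k[X]) (t : k) : R →ₗ[ℂ] k where
  toFun r := (derivative (H r)).eval t
  map_add' x y := by simp
  map_smul' c x := by
    have h : ∀ (q : k[X]), derivative (c • q) = c • derivative q := fun q => by
      rw [derivative_smul]
    simp only [map_smul, h, eval_smul, RingHom.id_apply]

theorem no_small [IsDomain R] [UniqueFactorizationMonoid R] (hfg : Algebra.FiniteType ℂ R) {n : ℕ}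
    (hdim : ringKrullDim R = (n : ℕ)) {H : R →ₐ[ℂ] k[X]} {t : k}
    (hs : Pool.Agent.Helper4.LE.SubAt H t) {a b : R} (ha : (H a).eval t = 0)
    (hb : (H b).eval t = 0) (hb0 : b ≠ 0) (hcop : ∀ p, Prime p → p ∣ a → ¬ p ∣ b) : False := by
  set p : R →ₐ[ℂ] k := ((Polynomial.aeval t : k[X] →ₐ[k] k).restrictScalars ℂ).comp H with hp
  have hpe : ∀ r, p r = (H r).eval t := fun r => by
    rw [hp]
    show Polynomial.aeval t (H r) = _
    rw [Polynomial.coe_aeval_eq_eval]
  obtain ⟨s, g, hsn, ginj, gint⟩ := exists_few hfg hdim (RingHom.ker p) (RingHom.ker_isPrime _)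
    (a := a) (b := b) (by rw [RingHom.mem_ker]; exact (hpe a).trans ha)
    (by rw [RingHom.mem_ker]; exact (hpe b).trans hb) hb0 hcop
  obtain ⟨hfin, hsmall⟩ := ek_small p g ginj gint
  obtain ⟨-, hbig⟩ := Pool.Agent.Helper98.DP.rk0 hdim p
  have hle : Pool.Agent.Helper98.DP.EE (fun a => p a) ≤ EK p ⊔ Submodule.span k {vel H t} := by
    intro δ hδ
    obtain ⟨D, mu, hD⟩ := hs δ (by
      intro a b
      rw [← hpe, ← hpe]
      exact hδ a b)
    rw [Submodule.mem_sup]
    refine ⟨D.toLinearMap ∘ₗ p.toLinearMap, ⟨fun a b => ?_, fun r hr => ?_⟩,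
      (mu - D t) • vel H t, Submodule.smul_mem _ _ (Submodule.mem_span_singleton_self _), ?_⟩
    · show D (p (a * b)) = p a * D (p b) + p b * D (p a)
      rw [map_mul, Derivation.leibniz, smul_eq_mul, smul_eq_mul]
    · show D (p r) = 0
      rw [hr, map_zero]
    · apply LinearMap.ext
      intro r
      show D (p r) + (mu - D t) * (derivative (H r)).eval t = δ r
      rw [hpe, eval_der, hD]
      ring
  have h1 := Submodule.finrank_mono hle
  have h2 := Submodule.finrank_add_le_finrank_add_finrank (EK p) (Submodule.span k {vel H t})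
  have h3 : Module.finrank k (Submodule.span k {vel H t}) ≤ 1 := by
    by_cases hv : vel H t = 0
    · rw [hv, Submodule.span_zero_singleton, finrank_bot]
      exact Nat.zero_le _
    · exact (finrank_span_singleton hv).le
  omega

end Pool.Agent.Helper49.OLB
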